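import Mathlib
import Pool.Agent.Q64.L.Thms
import Pool.Agent.Q64.L.InstC

/-!
# The Tate-Beilinson conjecture for the products of arbitrary schemes with the abelian varieties of
almost all slope types of all CM fields

Let `K i` (`i` in a finite set) be CM fields of degree `2 g i`. Nothing is assumed about their
Galois groups. They are pairwise independent: for `i ≠ k` and all complex embeddings `φ` of `K i`
and `ψ` of `K k` some automorphism of `ℂ` is the identity on `φ (K i)` and the complex conjugation
on `ψ (K k)` (this is no condition if there is only one field). We fix an isomorphism `ν` of the
algebraic closure of `ℚ_p` with `ℂ`; it defines a `p`-adic valuation of `ℂ`, with the value one at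
`p`. Let `M i` be a function with nonzero integral values, all of which divide `n i`, on the
complex embeddings of `K i`, invariant under complex conjugation. A CM type `Φ i` of `K i` (a
choice of one element out of each complex conjugate pair of embeddings; there are `2 ^ (g i)`
types), `M i` and a real number `κ ≠ 0` prescribe the slopes `(a + κ M) / 2` (at the embeddings in
`Φ i`) and `(a - κ M) / 2` (outside of `Φ i`) of a Weil number for `p ^ a` in `K i` (`HasType`).
The case `M = 1`, `κ = a` is the case of ordinary abelian varieties; the assumption on `M` says
that `a / 2` is not a slope.

There are `2 ^ (∑ i, g i)` families of CM types `Φ i` of the fields `K i`. A family is exceptional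
(`exceptionalFamilies ν K M`) if the following statement (`Holds`) is false for it. Let `π i` be
Weil numbers for `q = p ^ a` that generate the fields `K i` and have the slope types `Φ i`, `M i`,
and let `f i` be monic polynomials whose complex roots are conjugates of `π i` (`IsPolyOf`), for
instance the characteristic polynomials of Frobenius of the abelian varieties in the isogeny
classes of the `π i` over the field with `q` elements. Let `A` be an abelian variety over the field
with `Q = q ^ s` elements which is isogenous to a product of powers of abelian varieties coming
from the field with `q` elements, with characteristic polynomials `f i`, and let `X` be **any**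
separated scheme of finite type over the field with `Q` elements such that

* the eigenvalues `ρ` of Frobenius on the `ℓ`-adic homology of `X` and their conjugates are
  unrelated to the fields `K i` (`UnrelatedTo`): a function `n` on the complex embeddings of `K i`
  with `n (conj φ) = - n φ` which is invariant under all automorphisms of `ℂ` that fix a power of
  `ρ` is zero. This is so if for each embedding `ψ` of `K i` some automorphism which fixes a power
  of `ρ` is the complex conjugation on `ψ (K i)`: for instance, if a power of `ρ` lies in a field
  linearly disjoint from the normal closures of the `K i`, or in a totally real field. It is also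
  so if the degree of `ρ` is less than twice the dimension of each nonzero space of functions `n`
  stable under all automorphisms of `ℂ`;
* the Frobenius endomorphism of `X` satisfies on each group of motivic homology of `A × X` a
  nonzero polynomial with rational coefficients whose complex roots are unrelated to the `K i`. For
  instance this is so if the motive of `X` is built from finite-dimensional motives (Kimura) of
  smooth projective varieties which satisfy the first condition.

**The statement `TB` holds for `A × X` if and only if it holds for `X`.** More precisely, for all
`a`, `b` the following are equivalent: the regulator is an isomorphism of the motivic homology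
`H_a(A × X, b)` (tensored with `ℚ_ℓ`) with the Galois invariants of the `ℓ`-adic homology, and the
eigenvalue `1` of Frobenius on it is semisimple (`TateBeilinsonTimes`); the same for all the groups
`H_(a - 2 l)(X, b - l)`, `0 ≤ l ≤ dim A` (`TateBeilinson`). The motivic homology of `A × X` and the
Galois invariants satisfy a Kunneth formula, with finitely many products of divisor classes on `A`.
`X` may be singular, reducible and not proper; no resolution of singularities and no case of the
conjectures is assumed.

For smooth projective varieties there are results of this kind in this repository (the conjectures
of Parshin and of Beilinson, `MP_de59b4_ag`, `MP_b52861_ag`). New is that `X` is arbitrary, all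
bidegrees, and the semisimplicity, which needs the Kunneth formula for generalized eigenvectors.

What is used of `A` are known theorems (`IsAbelian`): `H(A)` is generated by `H^1`, Frobenius is
diagonalizable on `H^1` (Weil), the theorem of Tate on divisors, and the nilpotence of
homologically trivial correspondences (Kimura). The theories relative to `X` are modelled by
`RelData`, with the formal properties in `IsTheory`: degrees, products with classes on `A`,
push-forward to `X`, the projection formula, the operation of the correspondences of `A` and of the
Frobenius endomorphism of `X`. The groups of `X` are numbered as follows: the group of bidegree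
`(i, j)` of `X` is `H_(-i)(X, -j)`, and the group of bidegree `(i, j)` of `A × X` is
`H_(2 d - i)(A × X, d - j)`, `d = dim A`; so the product with a class of codimension `c` on `A` has
the bidegree `(2 c, c)`. The operator `frobN`, `frobM` is the inverse of the push-forward by the
Frobenius endomorphism of `X`; then the Frobenius endomorphism of `A × X` is the multiplication by
`Q ^ j` on motivic homology (`IsPure`), and also on the Galois invariants of the `ℓ`-adic homology
groups (`InvN`, `InvM`); the generalized eigenvectors are in `GenN`, `GenM`.

The theorem bounds the number of the exceptional families: it is at most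
`2 ^ (∑ i, g i) * ∑ i, C * (n i) ^ 2 * (1 + log (2 g i)) ^ 16 * min (N ^ 2 * D ^ (1 / 4) / √g, √g / q)`
with an absolute constant `C`. Here, for `K = K i` and `g = g i`, `N` is the number of the CM
subfields of `K` (with `K`), `D = D i ≥ 1` is a bound for the degrees of the CM subfields of `K`
that are normal over `ℚ` with a nonabelian Galois group, and `q = q i` is any prime factor of `g`
(or `q = 1`). So the exceptional types are a proportion `O (n ^ 2 * g ^ (-1 / 4) * (log g) ^ 16)`
of all types of all CM fields with a bounded number of CM subfields,
`O (n ^ 2 * g ^ (-1 / 2) * (log g) ^ 16)` if the normal nonabelian ones have bounded degrees, and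
`O (n ^ 2 * g ^ (-δ) * (log g) ^ 16)` for all CM fields, with any number of subfields, whose degree
is divisible by a prime number `q ≥ g ^ (1 / 2 + δ)`. Some assumption is necessary: almost all
types of a multiquadratic CM field are degenerate. The counting part (the bound for the number of
the degenerate types) is the one of `AllCMFields` (MP_e12fcd_ag), by helper1 and others of this
team.

The proof. Suppose that the product of `ρ` and of some eigenvalues `φ (π i)` of `A`, no two of them
complex conjugate, is a power of `q`, up to a root of unity. For an automorphism `σ` of `ℂ` the
`p`-adic valuations of the images under `σ` give a linear relation between the signed weights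
`± M i (σ φ)` whose right side is a function of the valuation of `σ ρ`. It does not change if `σ`
is multiplied by an automorphism `τ` which fixes a power of `ρ`. The difference of the two
relations is homogeneous; if the types are not degenerate it is trivial, so that the differences of
the exponents of complex conjugate embeddings are invariant under `τ`. So they are zero, as `ρ` is
unrelated to the fields `K i`. It follows that the correspondence on `A` given by the sum of the
products of dual classes of divisor products acts as the identity on the part of the theory of
`A × X` in question: on the generalized eigenspace of the Frobenius endomorphism of `A × X` for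
`Q ^ j`, the Frobenius endomorphism of `A` satisfies a power of the polynomial reciprocal to that
of the Frobenius endomorphism of `X`; this polynomial is prime to the one whose value on `H(A)`
lies in the part generated by divisors, and the difference of the two correspondences is nilpotent.
So the theory of `A × X` is, on this part, the direct sum of copies of the one of `X` (Kunneth
formula), compatibly with the regulators.
-/

set_option autoImplicit false

namespace Pool.Agent.Results.MP_2ce3e7_ag.AllCMTypesTimesAny

open NumberField Module Pool.Agent.H204R3.CM Pool.Agent.H977R3.CM Pool.Agent.TH170
  Pool.Agent.Y1.KN Pool.Agent.Y1.CT Pool.Agent.Q64.L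

/-- The statement `TBReduces` holds for all abelian varieties `A` whose Frobenius eigenvalues are
powers of conjugates of Weil numbers with the slope types `Φ i`, `M i`, and all schemes unrelated
to the fields `K i`. -/
def Holds {p : ℕ} [Fact p.Prime] (ν : PadicAlgCl p ≃+* ℂ) {I : Type} (K : I → Type)
    [∀ i, Field (K i)] [∀ i, NumberField (K i)] [∀ i, IsCMField (K i)]
    (M : ∀ i, (K i →+* ℂ) → ℤ) (Φ : ∀ i, Set (K i →+* ℂ)) : Prop :=
  ForAllTypes ν K M (fun q f => TBReduces (UnrelatedRoots K) q f) Φ

/-- The exceptional families of CM types. -/
def exceptionalFamilies {p : ℕ} [Fact p.Prime] (ν : PadicAlgCl p ≃+* ℂ) {I : Type} (K : I → Type)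
    [∀ i, Field (K i)] [∀ i, NumberField (K i)] [∀ i, IsCMField (K i)]
    (M : ∀ i, (K i →+* ℂ) → ℤ) : Set (∀ i, Set (K i →+* ℂ)) :=
  {Φ | (∀ i, IsCMType (Φ i)) ∧ ¬ Holds ν K M Φ}

/-- **`TB` holds for `A × X` if and only if it holds for `X`, for the abelian varieties `A` of
almost all slope types of all CM fields and all unrelated schemes.** -/
theorem result :
    ∃ C : ℝ, 0 ≤ C ∧ ∀ (p : ℕ) [Fact p.Prime] (ν : PadicAlgCl p ≃+* ℂ) (I : Type) [Fintype I]
      (K : I → Type) [∀ i, Field (K i)] [∀ i, NumberField (K i)] [∀ i, IsCMField (K i)]
      (M : ∀ i, (K i →+* ℂ) → ℤ) (n g q : I → ℕ) (D : I → ℝ), PairwiseIndep K →
      (∀ i φ, M i (ComplexEmbedding.conjugate φ) = M i φ) → (∀ i, n i ≠ 0) →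
      (∀ i φ, M i φ ∣ (n i : ℤ)) → (∀ i, finrank ℚ (K i) = 2 * g i) →
      (∀ i, q i ∣ g i ∧ (q i = 1 ∨ (q i).Prime)) → (∀ i, 1 ≤ D i) →
      (∀ (i : I) (L : IntermediateField ℚ (K i)), IsCMField L → IsGalois ℚ L →
        ¬ IsAbelianGalois ℚ L → (finrank ℚ L : ℝ) ≤ D i) →
      ((exceptionalFamilies ν K M).ncard : ℝ) ≤
        2 ^ (∑ i, g i) * ∑ i, C * (n i : ℝ) ^ 2 * ((1 + Real.log (2 * g i)) ^ 16 *
          min ((numCMSubfields (K i) : ℝ) ^ 2 * D i ^ (1 / 4 : ℝ) / √(g i)) (√(g i) / q i)) := by
  obtain ⟨C, hC0, hC⟩ := countC
  refine ⟨C, hC0, ?_⟩
  intro p _ ν I _ K _ _ _ M n g q D hind hM hn hMn hg hq hD hDF
  exact hC p ν I K M n g q D hind hM hn hMn hg hq hD hDF _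
    fun Q f hQ hG => tbReduces hQ hG

end Pool.Agent.Results.MP_2ce3e7_ag.AllCMTypesTimesAny
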