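import Mathlib
import Pool.Agent.Q64.L.Thms
import Pool.Agent.Q64.L.InstA

/-!
# The Tate-Beilinson conjecture for the products of arbitrary schemes with almost all abelian
varieties

Let `g i` (`i` in a finite set `I`) be positive integers, `r` an integer smaller than all the `g i`
and `E` a number field.  For a prime power `q` let `S i` be the set of the characteristic
polynomials of Frobenius of the ordinary abelian varieties of dimension `g i` over the field with
`q` elements, or of all abelian varieties of dimension `g i`, or any set in between.  By Weil,
Honda and Tate its elements correspond to the isogeny classes, the first set contains
`ordinaryWeilPolys q (g i)`, and the second one is contained in `weilPolys q (g i)`.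

For almost all families `f i` in `S i` (`AlmostAll`: with the exception of a proportion
`O (q ^ (-1 / 6) log q)`, the constant depending only on `g`, `r` and `E`) the following holds for
all `s > 0`, `Q = q ^ s`, all abelian varieties `A` over the field with `Q` elements which are
isogenous to products of powers of abelian varieties coming from the field with `q` elements, with
characteristic polynomials `f i`, and **any** separated scheme of finite type `X` over the field
with `Q` elements such that

* the eigenvalues of Frobenius on the `ℓ`-adic homology of `X` and their conjugates generate a
  group of rank at most `r` modulo the group of the numbers with a power in `E` (for `r = 0`: they
  have powers in `E`; for any given `X` over the field with `q'` elements one can take for `E` the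
  field generated by the eigenvalues and their conjugates, and apply the theorem to the powers `q`
  of `q'`);
* the Frobenius endomorphism of `X` satisfies on each group of motivic homology of `A × X` a
  nonzero polynomial with rational coefficients whose complex roots have the same property. For
  instance this is so if the motive of `X` is built from finite-dimensional motives (Kimura) of
  smooth projective varieties which satisfy the first condition.

**The statement `TB` holds for `A × X` if and only if it holds for `X`.** More precisely, for all
`a`, `b` the following are equivalent: the regulator is an isomorphism of the motivic homology
`H_a(A × X, b)` (tensored with `ℚ_ℓ`) with the Galois invariants of the `ℓ`-adic homology, and the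
eigenvalue `1` of Frobenius on it is semisimple (`TateBeilinsonTimes`); the same for all the groups
`H_(a - 2 l)(X, b - l)`, `0 ≤ l ≤ dim A` (`TateBeilinson`). The motivic homology of `A × X` and the
Galois invariants satisfy a Kunneth formula, with finitely many products of divisor classes on `A`.
`X` may be singular, reducible and not proper; no resolution of singularities and no case of the
conjectures is assumed.

For smooth projective varieties there are results of this kind in this repository (the conjectures
of Parshin and of Beilinson, `MP_de59b4_ag`, `MP_b52861_ag`). New is that `X` is arbitrary, all
bidegrees, and the semisimplicity, which needs the Kunneth formula for generalized eigenvectors.

What is used of `A` are known theorems (`IsAbelian`): `H(A)` is generated by `H^1`, Frobenius is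
diagonalizable on `H^1` (Weil), the theorem of Tate on divisors, and the nilpotence of
homologically trivial correspondences (Kimura). The theories relative to `X` are modelled by
`RelData`, with the formal properties in `IsTheory`: degrees, products with classes on `A`,
push-forward to `X`, the projection formula, the operation of the correspondences of `A` and of the
Frobenius endomorphism of `X`. The groups of `X` are numbered as follows: the group of bidegree
`(i, j)` of `X` is `H_(-i)(X, -j)`, and the group of bidegree `(i, j)` of `A × X` is
`H_(2 d - i)(A × X, d - j)`, `d = dim A`; so the product with a class of codimension `c` on `A` has
the bidegree `(2 c, c)`. The operator `frobN`, `frobM` is the inverse of the push-forward by the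
Frobenius endomorphism of `X`; then the Frobenius endomorphism of `A × X` is the multiplication by
`Q ^ j` on motivic homology (`IsPure`), and also on the Galois invariants of the `ℓ`-adic homology
groups (`InvN`, `InvM`); the generalized eigenvectors are in `GenN`, `GenM`.

The proof: by a sieve (helper521), which only uses the primes that split completely in the Galois
closure of `E` - these have positive density by the theorem of Chebotarev, formalized by helper401
- almost all families are such that each pair `α`, `q / α` of roots can be exchanged by a Galois
automorphism which fixes all the other roots of all the `f i` and also all elements of `E`. It
follows that the correspondence on `A` given by the sum of the products of dual classes of divisor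
products acts as the identity on the part of the theory of `A × X` in question: on the generalized
eigenspace of the Frobenius endomorphism of `A × X` for `Q ^ j`, the Frobenius endomorphism of `A`
satisfies a power of the polynomial reciprocal to that of the Frobenius endomorphism of `X`; this
polynomial is prime to the one whose value on `H(A)` lies in the part generated by divisors, and
the difference of the two correspondences is nilpotent. So the theory of `A × X` is, on this part,
the direct sum of copies of the one of `X` (Kunneth formula), compatibly with the regulators.
-/

set_option autoImplicit false

namespace Pool.Agent.Results.MP_2ce3e7_ag.AlmostAllTimesAny

open Pool.Agent.Y156.L Pool.Agent.Q64.L

/-- **`TB` holds for `A × X` if and only if it holds for `X`, for almost all abelian varieties `A`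
and all schemes of small Frobenius rank.** -/
theorem result {I : Type} [Fintype I] (g : I → ℕ) (r : ℕ) (hr : ∀ i, r < g i)
    (E : IntermediateField ℚ ℂ) [FiniteDimensional ℚ E] :
    AlmostAll g fun q F => TBReduces (RootsRank E r) q F :=
  countA g r hr E (fun q F => TBReduces (RootsRank E r) q F) fun _ _ hq hG => tbReduces hq hG

end Pool.Agent.Results.MP_2ce3e7_ag.AlmostAllTimesAny
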