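import Pool.Agent.Q68.GB.Main

/-!
# The generalized conjecture of Tate and Beilinson for schemes generated by abelian varieties with
simple factors of prime dimensions, or with irreducible odd functions

Over an algebraic closure of the field with `p` elements each abelian variety is isogenous to the
reduction of an abelian variety of CM type (Honda, Tate). So an abelian variety over the field with
`p ^ a` elements is modelled by `RedAV`: a finite product of CM types `(E i, Φ i)` with Weil numbers
`π i ∈ E i` that satisfy the formula of Shimura and Taniyama; its cohomology of degree `n`, with
coefficients in an algebraically closed field `Ω`, consists of the alternating `n`-forms on
`Ω ⊗ H_1`, on which the Frobenius endomorphism acts by `π`. The dimension of the factor `i` is half of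
the degree of the CM field `E i`.

We consider (`IsLargeAV`) the abelian varieties `Y`, of any Newton polygons, that have dimension at
most five, or that are isogenous, over an algebraic closure, to a product of a supersingular abelian
variety and of powers of the factors of an abelian variety `Z` with the following properties
(`HasLargeFactors`). There is no condition on the factors of dimension one and two. The factors of
dimension at least three are not supersingular, their CM fields have pairwise different Galois
closures, and for each of them

* the odd functions on the complex embeddings of the CM field (`f (conj φ) = - f φ`) are an irreducible
  rational representation of the group of the automorphisms of `ℂ` (`OddIrreducible`); or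
* the dimension is an odd prime number, the CM field has no imaginary quadratic subfield in common
  with the CM field of another factor of `Z` (`CommonImaginary`), and it contains no imaginary
  quadratic field at all if the dimension is at least seven.

So `Y` may be the product of arbitrary elliptic curves and abelian surfaces and of powers of one
simple abelian variety `A g` for each odd prime number `g` of a finite set, of dimension `g`, not
supersingular, whose CM field contains no imaginary quadratic field (CM fields of degrees `2 g` for
different odd prime numbers `g` have different Galois closures): the dimensions of the simple
factors are not bounded. In the starting files on this conjecture the sum of the dimensions of the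
factors of `Z` is at most five, or all of them are at most three.

`Homology Ω V` are data of motivic homology `M X i j = H_i^M(X, ℚ(j))` (higher Chow groups, with
`M X (2 i) i = CH_i(X)`) and of `ℓ`-adic homology `E X i j = H_i(X, ℚ_ℓ(j))` (coefficients extended to
`Ω`) of schemes `X` over a finite field, with the Frobenius and the regulator. The class `Generated`
contains the abelian varieties above, it contains the schemes whose motives are direct summands of
finite sums of twists of motives of members, and it contains all of `Z`, `X`, `U = X ∖ Z` if it
contains two of them.

The theorem: for all schemes `X` of this class - smooth or not, proper or not - and all `i`, `j` the
regulator induces an isomorphism of `H_i^M(X, ℚ(j)) ⊗ Ω` with the space of the Frobenius invariant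
elements in `H_i(X, ℚ_ℓ(j)) ⊗ Ω`, and the eigenvalue one of the Frobenius on it is semisimple.

Properties of the theory of cycles that are used for the abelian varieties `Y` (`IsChowS`,
`IsMotivic`): Poincaré duality, the formal properties of correspondences, the nilpotence of
homologically trivial correspondences (Kimura), the operation of the Frobenius endomorphism on higher
Chow groups, the vanishing of the higher rational `K`-groups of a finite field (Quillen), and the
algebraicity of the Tate classes in `AlgS` (theorems of Tate, Markman, and Ramón Marí). The passage
from the Tate conjecture to all degrees is due to Soulé, Geisser, Kahn and Jannsen. That all Tate
classes on `Y` are in the system `AlgS` is due to helper306 of this team for the large factors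
(`PrimeDimensions`, MP_ee618e_ag), and to the starting files for the small ones.
-/

namespace Pool.Agent.Results.MP_2ce3e7_ag.FactorsOfPrimeDimension

open Pool.Agent.W495.TA Pool.Agent.W495.FM Pool.Agent.Q68.GB

/-- Jannsen's conjecture `TB(X)` for all members of the class generated by the abelian varieties of
dimension at most five and those with large factors. -/
theorem result (p : ℕ) [Fact p.Prime] (ν : PadicAlgCl p ≃+* ℂ) (Ω : Type) [Field Ω]
    [IsAlgClosed Ω] [CharZero Ω] (V : Type) (T : Homology Ω V) (hT : IsHomology T) (X : V)
    (hX : Generated T (IsLargeAbelian p ν T) X) : TB T X :=
  tb_large hT hX

end Pool.Agent.Results.MP_2ce3e7_ag.FactorsOfPrimeDimension
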