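import Pool.Agent.Q193.LT.Pair

/-!
# The generalized Tate-Beilinson conjecture and tripartite hypergraphs

Let `k` be a finite field and `ℓ` a prime number different from its characteristic. For a separated scheme
`X` of finite type over `k` and `(i, j) ∈ ℤ × ℤ` let

* `D.A (i, j) X = H_i^M(X, ℚ(j)) ⊗ ℚ_ℓ`, the motivic homology (higher Chow groups);
* `D.B (i, j) X` be the generalized eigenspace for the eigenvalue `1` of the Frobenius on the `ℓ`-adic
  homology `H_i(X_{k̄}, ℚ_ℓ(j))`; taking this generalized eigenspace is an exact functor;
* `D.ρ` be the regulator.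

`BijAll D X` says that `D.ρ` is bijective for all `(i, j)`. As the image of the regulator is contained
in the invariants of the Galois group, this is the property `TB(X)` of the problem: the regulator is an
isomorphism onto the invariants, and the generalized eigenspace is equal to the space of invariants.

For a finite set `H` of triples `(a, b, c)` (a tripartite hypergraph) let `X_H` be the smooth affine
cubic hypersurface `∑_{(a, b, c) ∈ H} x_a y_b z_c = 1` over the prime field `𝔽_p`.

**Theorem.** (1) For every prime number `p`, `TB(X)` is true for all separated schemes `X` of finite type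
over `𝔽_p` if and only if `TB(X_H)` is true for all finite sets `H` of triples. (A scheme of finite type
over a finite field of characteristic `p` is also one over `𝔽_p`, and this does not change the property
`TB(X)`; so the left side is question Q1 for all finite fields of characteristic `p`.)

(2) For every finite field `k` and all `n`, `TB(X)` is true for all separated schemes `X` of finite type
and dimension at most `n` over `k` if and only if it is true for the hypersurfaces `T(x, y, z) = 1` of
all trilinear forms `T` over `k` such that one of the three blocks of variables has at most `n + 2`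
variables (the other two blocks are arbitrary).
-/

set_option autoImplicit false

open CategoryTheory CategoryTheory.Limits AlgebraicGeometry Pool.Agent.Y116.UV Pool.Agent.Z125.UN
  Pool.Agent.Q193.LT

universe w

namespace Pool.Agent.Results.MP_2ce3e7_ag.TripartiteHypergraphs

/-- The boundary maps lower the first index by one: `(i, j) ↦ (i - 1, j)`. -/
def bd : ℤ × ℤ ≃ ℤ × ℤ := Equiv.prodCongr (Equiv.addRight (-1)) (Equiv.refl ℤ)

/-- The Tate twist `(i, j) ↦ (i + 2, j + 1)`. -/
def twist : ℤ × ℤ ≃ ℤ × ℤ := Equiv.prodCongr (Equiv.addRight 2) (Equiv.addRight 1)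

/-- The shift `(i, j) ↦ (i + 1, j)`. -/
def up : ℤ × ℤ ≃ ℤ × ℤ := Equiv.prodCongr (Equiv.addRight 1) (Equiv.refl ℤ)

/-- **The generalized Tate-Beilinson conjecture and tripartite hypergraphs.** See the explanations above.
The properties `IsPair` are the localization sequences, homotopy invariance for affine bundles
(`H_i(E, (j)) = H_{i-2r}(U, (j-r))` for fibre dimension `r`) and the formula
`H_{i+1}(X × 𝔾_m, (j)) = H_i(X, (j)) ⊕ H_{i-1}(X, (j-1))`, for both theories; `point` is the known case
`Spec k`. -/
theorem result {k : Type} [Field k] [Finite k] {ℓ : ℕ} [Fact ℓ.Prime]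
    {D : PairData.{w} k (ℤ × ℤ) ℚ_[ℓ]} (hD : IsPair D bd twist up) (point : BijAll D (aff k k)) :
    (Frac k → ((∀ X : Sch k, FT True X → BijAll D X) ↔
      ∀ (a b c : ℕ) (H : Finset (Fin a × Fin b × Fin c)), BijAll D (tripS k H))) ∧
    ∀ n : ℕ, (∀ X : Sch k, FT True X → topologicalKrullDim X.left ≤ n → BijAll D X) ↔
      ∀ (a b c : ℕ) (T : Fin a → Fin b → Fin c → k), (a ≤ n + 2 ∨ b ≤ n + 2 ∨ c ≤ n + 2) →
        BijAll D (hypS T) :=
  ⟨fun hk => ⟨fun h _ _ _ _ => h _ (ft_aff True),
    fun h X hX => universal_frac hk (bnd_pair hD point).toUni h X hX⟩,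
    fun n => dim_iff (bnd_pair hD point) n⟩

end Pool.Agent.Results.MP_2ce3e7_ag.TripartiteHypergraphs
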